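import Pool.Agent.L5helper46.DJ.Join

/-!
# Counterexamples with every large chromatic number and every gap

For all `m ≥ 1` and `k ≥ 16 m` there is a graph with `k + 24 m` vertices, chromatic number `k` and clique number at
most `k - m`, in which the removal of the ends of any edge leaves a graph with a colouring with `k - 2` colours; so it
has no two disjoint subgraphs with chromatic numbers `2` and `k - 1`.
-/

set_option autoImplicit false

namespace Pool.Agent.L5helper46.DJ.AllLarge

open SimpleGraph Pool.Agent.L5helper46.DJ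

theorem all_large : ∀ m k : ℕ, 1 ≤ m → 16 * m ≤ k → ∃ G : SimpleGraph (Fin (k + 24 * m)),
    G.chromaticNumber = (k : ℕ∞) ∧ G.CliqueFree (k - m + 1) ∧
    (∀ x y, G.Adj x y → (G.induce ({x, y}ᶜ : Set (Fin (k + 24 * m)))).Colorable (k - 2)) ∧
    ¬ ∃ S T : Set (Fin (k + 24 * m)), Disjoint S T ∧ (2 : ℕ∞) ≤ (G.induce S).chromaticNumber ∧
      ((k - 1 : ℕ) : ℕ∞) ≤ (G.induce T).chromaticNumber := by
  intro m k hm hk
  obtain ⟨t, rfl⟩ : ∃ t, k = 16 * m + t := ⟨k - 16 * m, by omega⟩
  obtain ⟨G0, hG0⟩ := family m t hm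
  let e : Fin (16 * m + t + 24 * m) ≃ Fin (40 * m + t) := finCongr (by ring)
  have h := hG0.comap e
  generalize G0.comap e = G at h
  have hpair : ∀ x y, G.Adj x y → (G.induce ({x, y}ᶜ : Set _)).Colorable (16 * m + t - 2) := fun x y hxy => by
    obtain ⟨j, hj, hc⟩ := h.edge x y hxy
    have : 16 * m + t - 2 = j := by omega
    rw [this]
    exact colorable_of_colOn hc
  refine ⟨G, ?_, ?_, hpair, ?_⟩
  · refine le_antisymm (colOn_univ.1 h.col).chromaticNumber_le ?_
    refine le_chromaticNumber_iff_colorable.2 fun j hj => ?_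
    exact h.ncol j hj
  · intro s hs
    have h1 := h.clq s hs.isClique
    have h2 := hs.card_eq
    omega
  · rintro ⟨S, T, hdis, hS, hT⟩
    have hedge : ∃ x ∈ S, ∃ z ∈ S, G.Adj x z := by
      by_contra hcon
      push Not at hcon
      have h1 : (G.induce S).Colorable 1 := by
        rw [colorable_one_iff, eq_bot_iff_forall_not_adj]
        intro a b hab
        exact hcon a.val a.property b.val b.property hab
      have h2 := hS.trans h1.chromaticNumber_le
      have h3 : (2 : ℕ) ≤ 1 := by exact_mod_cast h2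
      omega
    obtain ⟨x, hx, z, hz, hxz⟩ := hedge
    obtain ⟨j, hj, c, c1, c2⟩ := h.edge x z hxz
    have hsub : ∀ p ∈ T, p ∈ ({x, z}ᶜ : Set _) := by
      intro p hp
      simp only [Set.mem_compl_iff, Set.mem_insert_iff, Set.mem_singleton_iff, not_or]
      constructor
      · rintro rfl
        exact Set.disjoint_left.1 hdis hx hp
      · rintro rfl
        exact Set.disjoint_left.1 hdis hz hp
    have hcol : (G.induce T).Colorable j :=
      colorable_of_colOn ⟨c, fun p hp => c1 p (hsub p hp), fun p hp q hq hpq => c2 p (hsub p hp) q (hsub q hq) hpq⟩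
    have h2 := hT.trans hcol.chromaticNumber_le
    have h3 : 16 * m + t - 1 ≤ j := by exact_mod_cast h2
    omega

end Pool.Agent.L5helper46.DJ.AllLarge
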