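import Pool.Agent.Helper216_DC.Tihany

/-! Joins of double-critical graphs. -/

set_option autoImplicit false

namespace Pool.Agent.L5helper46.DJ

open SimpleGraph

/-- The subgraph induced on `A` has a proper colouring with `j` colours. -/
def ColOn {V : Type} (G : SimpleGraph V) (A : Set V) (j : ℕ) : Prop :=
  ∃ c : V → ℕ, (∀ x ∈ A, c x < j) ∧ ∀ x ∈ A, ∀ y ∈ A, G.Adj x y → c x ≠ c y

theorem colOn_of_colorable {V : Type} {G : SimpleGraph V} {A : Set V} {j : ℕ} (h : (G.induce A).Colorable j) :
    ColOn G A j := by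
  classical
  obtain ⟨C⟩ := h
  refine ⟨fun x => if hx : x ∈ A then (C ⟨x, hx⟩).1 else 0, fun x hx => ?_, fun x hx y hy hxy => ?_⟩
  · simp only [dif_pos hx]
    exact (C ⟨x, hx⟩).2
  · simp only [dif_pos hx, dif_pos hy]
    intro h
    exact C.valid (v := ⟨x, hx⟩) (w := ⟨y, hy⟩) hxy (Fin.ext h)

theorem colorable_of_colOn {V : Type} {G : SimpleGraph V} {A : Set V} {j : ℕ} (h : ColOn G A j) :
    (G.induce A).Colorable j := by
  obtain ⟨c, h1, h2⟩ := h
  exact ⟨Coloring.mk (fun x : A => (⟨c x, h1 x x.2⟩ : Fin j)) fun {x y} hxy h =>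
    h2 x x.2 y y.2 hxy (congrArg Fin.val h)⟩

theorem colOn_univ {V : Type} {G : SimpleGraph V} {j : ℕ} : ColOn G Set.univ j ↔ G.Colorable j := by
  constructor
  · rintro ⟨c, h1, h2⟩
    exact ⟨Coloring.mk (fun x => (⟨c x, h1 x trivial⟩ : Fin j)) fun {x y} hxy h =>
      h2 x trivial y trivial hxy (congrArg Fin.val h)⟩
  · rintro ⟨C⟩
    exact ⟨fun x => (C x).1, fun x _ => (C x).2, fun x _ y _ hxy h => C.valid hxy (Fin.ext h)⟩

/-- `k` colours, `k - m` bounds the cliques, every edge can be removed with two colours. -/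
structure DC {V : Type} (k m : ℕ) (G : SimpleGraph V) : Prop where
  col : ColOn G Set.univ k
  ncol : ∀ j, G.Colorable j → k ≤ j
  clq : ∀ s : Finset V, G.IsClique (s : Set V) → s.card + m ≤ k
  edge : ∀ x y, G.Adj x y → ∃ j, j + 2 = k ∧ ColOn G ({x, y}ᶜ) j
  vert : ∀ x, ∃ j, j + 1 = k ∧ ColOn G ({x}ᶜ) j

/-- The join of two graphs. -/
def join {V W : Type} (G : SimpleGraph V) (H : SimpleGraph W) : SimpleGraph (V ⊕ W) where
  Adj := Sum.elim (fun a => Sum.elim (G.Adj a) fun _ => True) fun a => Sum.elim (fun _ => True) (H.Adj a)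
  symm := ⟨by
    rintro (a | a) (b | b) h
    · exact G.adj_symm h
    · trivial
    · trivial
    · exact H.adj_symm h⟩
  loopless := ⟨by
    rintro (a | a) h
    · exact G.irrefl h
    · exact H.irrefl h⟩

theorem join_col {V W : Type} {G : SimpleGraph V} {H : SimpleGraph W} {A : Set (V ⊕ W)} {A1 : Set V}
    {A2 : Set W} {i j : ℕ} (hG : ColOn G A1 i) (hH : ColOn H A2 j) (h1 : ∀ a, Sum.inl a ∈ A → a ∈ A1)
    (h2 : ∀ b, Sum.inr b ∈ A → b ∈ A2) : ColOn (join G H) A (i + j) := by
  obtain ⟨c, c1, c2⟩ := hG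
  obtain ⟨d, d1, d2⟩ := hH
  refine ⟨Sum.elim c fun b => i + d b, ?_, ?_⟩
  · rintro (a | b) h
    · have := c1 a (h1 a h)
      simp only [Sum.elim_inl]
      omega
    · have := d1 b (h2 b h)
      simp only [Sum.elim_inr]
      omega
  · rintro (a | a) ha (b | b) hb hab
    · exact c2 a (h1 a ha) b (h1 b hb) hab
    · have := c1 a (h1 a ha)
      simp only [Sum.elim_inl, Sum.elim_inr]
      omega
    · have := c1 b (h1 b hb)
      simp only [Sum.elim_inl, Sum.elim_inr]
      omega
    · have := d2 a (h2 a ha) b (h2 b hb) hab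
      simp only [Sum.elim_inr]
      omega

theorem DC.join {V W : Type} [Fintype V] [Fintype W] {G : SimpleGraph V} {H : SimpleGraph W} {k l m m' : ℕ}
    (hG : DC k m G) (hH : DC l m' H) : DC (k + l) (m + m') (join G H) := by
  classical
  refine ⟨join_col hG.col hH.col (fun _ _ => trivial) fun _ _ => trivial, fun j hj => ?_, fun s hs => ?_, ?_, ?_⟩
  · obtain ⟨C⟩ := hj
    let A : Finset (Fin j) := Finset.univ.image fun a : V => C (Sum.inl a)
    let B : Finset (Fin j) := Finset.univ.image fun b : W => C (Sum.inr b)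
    have hA : k ≤ A.card := by
      refine hG.ncol _ ?_
      have h := (Coloring.mk (fun a : V => (⟨C (Sum.inl a), Finset.mem_image_of_mem _ (Finset.mem_univ a)⟩ : A))
        (fun {a b} (hab : G.Adj a b) h => C.valid (v := Sum.inl a) (w := Sum.inl b) hab
          (congrArg Subtype.val h)) : G.Coloring A).colorable
      rwa [Fintype.card_coe] at h
    have hB : l ≤ B.card := by
      refine hH.ncol _ ?_
      have h := (Coloring.mk (fun a : W => (⟨C (Sum.inr a), Finset.mem_image_of_mem _ (Finset.mem_univ a)⟩ : B))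
        (fun {a b} (hab : H.Adj a b) h => C.valid (v := Sum.inr a) (w := Sum.inr b) hab
          (congrArg Subtype.val h)) : H.Coloring B).colorable
      rwa [Fintype.card_coe] at h
    have hAB : Disjoint A B := by
      rw [Finset.disjoint_left]
      intro x hx hx'
      obtain ⟨a, _, ha⟩ := Finset.mem_image.1 hx
      obtain ⟨b, _, hb⟩ := Finset.mem_image.1 hx'
      have h3 : (DJ.join G H).Adj (Sum.inl a) (Sum.inr b) := trivial
      exact C.valid h3 (ha.trans hb.symm)
    have h1 := Finset.card_le_univ (A ∪ B)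
    rw [Finset.card_union_of_disjoint hAB, Fintype.card_fin] at h1
    omega
  · have h1 := Finset.card_toLeft_add_card_toRight (u := s)
    have h2 := hG.clq s.toLeft fun a ha b hb hne => by
      have := hs (x := Sum.inl a) (by simpa using ha) (y := Sum.inl b) (by simpa using hb) (by simpa using hne)
      exact this
    have h3 := hH.clq s.toRight fun a ha b hb hne => by
      have := hs (x := Sum.inr a) (by simpa using ha) (y := Sum.inr b) (by simpa using hb) (by simpa using hne)
      exact this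
    omega
  · rintro (x | x) (y | y) hxy
    · obtain ⟨j, hj, hc⟩ := hG.edge x y hxy
      exact ⟨j + l, by omega, join_col hc hH.col (fun a ha => by simpa using ha) fun _ _ => trivial⟩
    · obtain ⟨j, hj, hc⟩ := hG.vert x
      obtain ⟨j', hj', hc'⟩ := hH.vert y
      exact ⟨j + j', by omega, join_col hc hc' (fun a ha => by simpa using ha) fun a ha => by simpa using ha⟩
    · obtain ⟨j, hj, hc⟩ := hG.vert y
      obtain ⟨j', hj', hc'⟩ := hH.vert x
      exact ⟨j + j', by omega, join_col hc hc' (fun a ha => by simpa using ha) fun a ha => by simpa using ha⟩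
    · obtain ⟨j, hj, hc⟩ := hH.edge x y hxy
      exact ⟨k + j, by omega, join_col hG.col hc (fun _ _ => trivial) fun a ha => by simpa using ha⟩
  · rintro (x | x)
    · obtain ⟨j, hj, hc⟩ := hG.vert x
      exact ⟨j + l, by omega, join_col hc hH.col (fun a ha => by simpa using ha) fun _ _ => trivial⟩
    · obtain ⟨j, hj, hc⟩ := hH.vert x
      exact ⟨k + j, by omega, join_col hG.col hc (fun _ _ => trivial) fun a ha => by simpa using ha⟩

theorem DC.comap {V W : Type} {G : SimpleGraph V} {k m : ℕ} (h : DC k m G) (e : W ≃ V) :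
    DC k m (G.comap e) := by
  classical
  have key : ∀ (A : Set V) (B : Set W) (j : ℕ), (∀ x ∈ B, e x ∈ A) → ColOn G A j → ColOn (G.comap e) B j := by
    rintro A B j hAB ⟨c, c1, c2⟩
    exact ⟨fun x => c (e x), fun x hx => c1 _ (hAB x hx), fun x hx y hy hxy => c2 _ (hAB x hx) _ (hAB y hy) hxy⟩
  refine ⟨key Set.univ Set.univ k (fun _ _ => Set.mem_univ _) h.col, fun j hj => ?_, fun s hs => ?_, fun x y hxy => ?_, fun x => ?_⟩
  · obtain ⟨C⟩ := hj
    refine h.ncol j ⟨Coloring.mk (fun v => C (e.symm v)) fun {a b} hab hc => ?_⟩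
    refine C.valid (v := e.symm a) (w := e.symm b) ?_ hc
    simpa using hab
  · have h1 := h.clq (s.map e.toEmbedding) (by
      intro a ha b hb hne
      simp only [Finset.coe_map, Equiv.coe_toEmbedding, Set.mem_image, Finset.mem_coe] at ha hb
      obtain ⟨a', ha', rfl⟩ := ha
      obtain ⟨b', hb', rfl⟩ := hb
      exact hs (by simpa using ha') (by simpa using hb') fun h => hne (by rw [h]))
    rwa [Finset.card_map] at h1
  · obtain ⟨j, hj, hc⟩ := h.edge (e x) (e y) hxy
    exact ⟨j, hj, key _ _ _ (fun z hz => by simpa using hz) hc⟩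
  · obtain ⟨j, hj, hc⟩ := h.vert (e x)
    exact ⟨j, hj, key _ _ _ (fun z hz => by simpa using hz) hc⟩

theorem DC.point : DC 1 0 (⊥ : SimpleGraph (Fin 1)) := by
  refine ⟨⟨fun _ => 0, fun _ _ => by norm_num, fun x _ y _ h => h.elim⟩, fun j hj => ?_, fun s _ => ?_,
    fun x y h => h.elim, fun x => ⟨0, rfl, fun _ => 0, fun y hy => ?_, fun y _ z _ h => h.elim⟩⟩
  · obtain ⟨C⟩ := hj
    have := (C 0).2
    omega
  · simpa using Finset.card_le_univ s
  · exact absurd (Subsingleton.elim y x) (by simpa using hy)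

theorem DC.base : DC 16 1 Helper216_DC.G := by
  classical
  have hch := Helper216_DC.chromaticNumber_G
  have hnbr : ∀ x : Fin 40, ∃ z : Fin 40, Helper216_DC.G.Adj x z := by decide +kernel
  have hcol : Helper216_DC.G.Colorable 16 := by
    rw [← chromaticNumber_le_iff_colorable, hch]
    exact le_rfl
  have hpair : ∀ x y, Helper216_DC.G.Adj x y → ColOn Helper216_DC.G ({x, y}ᶜ) 14 := fun x y hxy =>
    colOn_of_colorable (Helper216_DC.pair_colorable hxy _ fun p hp => by
      simp only [Set.mem_compl_iff, Set.mem_insert_iff, Set.mem_singleton_iff, not_or] at hp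
      exact hp)
  refine ⟨colOn_univ.2 hcol, fun j hj => ?_, fun s hs => ?_, fun x y hxy => ⟨14, rfl, hpair x y hxy⟩,
    fun x => ⟨15, rfl, ?_⟩⟩
  · have h1 := hj.chromaticNumber_le
    rw [hch] at h1
    exact_mod_cast h1
  · by_contra hcon
    obtain ⟨t, hts, ht⟩ := Finset.exists_subset_card_eq (show 16 ≤ s.card by omega)
    exact Helper216_DC.G_cliqueFree t ⟨hs.subset (by exact_mod_cast hts), ht⟩
  · obtain ⟨z, hz⟩ := hnbr x
    obtain ⟨c, c1, c2⟩ := hpair x z hz
    refine ⟨fun y => if y = z then 14 else c y, fun y hy => ?_, fun y hy w hw hyw => ?_⟩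
    · beta_reduce
      by_cases h : y = z
      · simp [h]
      · rw [if_neg h]
        have := c1 y (by simp only [Set.mem_compl_iff, Set.mem_insert_iff, Set.mem_singleton_iff, not_or] at hy ⊢; exact ⟨hy, h⟩)
        omega
    · have hmem : ∀ v, v ∈ ({x}ᶜ : Set (Fin 40)) → v ≠ z → v ∈ ({x, z}ᶜ : Set (Fin 40)) := fun v hv h => by
        simp only [Set.mem_compl_iff, Set.mem_insert_iff, Set.mem_singleton_iff, not_or] at hv ⊢
        exact ⟨hv, h⟩
      by_cases h1 : y = z <;> by_cases h2 : w = z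
      · exact absurd (h1.trans h2.symm) hyw.ne
      · simp only [if_pos h1, if_neg h2]
        have := c1 w (hmem w hw h2)
        omega
      · simp only [if_neg h1, if_pos h2]
        have := c1 y (hmem y hy h1)
        omega
      · simp only [if_neg h1, if_neg h2]
        exact c2 y (hmem y hy h1) w (hmem w hw h2) hyw

/-- The family. -/
theorem family (m t : ℕ) (hm : 1 ≤ m) : ∃ G : SimpleGraph (Fin (40 * m + t)), DC (16 * m + t) m G := by
  induction t with
  | zero =>
    induction m, hm using Nat.le_induction with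
    | base => exact ⟨Helper216_DC.G, DC.base⟩
    | succ m hm ih =>
      obtain ⟨G, hG⟩ := ih
      have e : Fin (40 * (m + 1) + 0) ≃ Fin (40 * m + 0) ⊕ Fin 40 :=
        (finCongr (by ring)).trans finSumFinEquiv.symm
      refine ⟨(join G Helper216_DC.G).comap e, ?_⟩
      have h := (hG.join DC.base).comap e
      rwa [show 16 * m + 0 + 16 = 16 * (m + 1) + 0 by ring] at h
  | succ t ih =>
    obtain ⟨G, hG⟩ := ih
    let e : Fin (40 * m + t + 1) ≃ Fin (40 * m + t) ⊕ Fin 1 := finSumFinEquiv.symm
    exact ⟨(join G (⊥ : SimpleGraph (Fin 1))).comap e, (hG.join DC.point).comap e⟩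

end Pool.Agent.L5helper46.DJ
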